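import Pool.Agent.Helper98.DE.St3
import Pool.Agent.Helper12.MA.Lib

/-!
# Project DE (MP_d63854_co): module TRI

Two neighbours of a vertex of degree at most 3 in a planar graph can be joined.
-/

set_option autoImplicit false

namespace Pool.Agent.Helper77.DE

open Pool.Agent.Helper98.DE
open Pool.Agent.Helper51.AJ (IsMinor Planar Apex ExMinor Con Tch)
open Pool.Agent.Helper12.NK (rst Kc cnt)
open Pool.Agent.Helper12.MA (dl ae Srv)

section

variable {V W : Type}

/-- reachability from one vertex -/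
private lemma con_of {G : SimpleGraph V} {S : Set V} (v : V) (hv : v ∈ S)
    (h : ∀ u (hu : u ∈ S), (G.induce S).Reachable ⟨v, hv⟩ ⟨u, hu⟩) : Con G S := by
  change (G.induce S).Connected
  rw [SimpleGraph.connected_iff_exists_forall_reachable]
  exact ⟨⟨v, hv⟩, fun w => h w.1 w.2⟩

/-- induction along a connected set -/
private lemma con_ind {G : SimpleGraph V} {S : Set V} (h : Con G S) (P : V → Prop) (x : V) (hx : x ∈ S) (h0 : P x)
    (hs : ∀ a ∈ S, ∀ b ∈ S, G.Adj a b → P a → P b) : ∀ u ∈ S, P u := by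
  intro u hu
  have h' : (G.induce S).Connected := h
  obtain ⟨w⟩ := h'.preconnected ⟨x, hx⟩ ⟨u, hu⟩
  have key : ∀ (a b : S) (_ : (G.induce S).Walk a b), P a.1 → P b.1 := by
    intro a b w
    induction w with
    | nil => exact id
    | cons hab _ ih => exact fun hp => ih (hs _ (Subtype.property _) _ (Subtype.property _) hab hp)
  exact key _ _ w h0

/-- the edge `x y` inside a branch set is replaced by the path `x v y` -/
private lemma con_ins {J : SimpleGraph V} {v x y : V} (hvx : J.Adj v x) (hvy : J.Adj v y) {S : Set V}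
    (hS : Con (ae J x y) S) (hx : x ∈ S) : Con J (insert v S) := by
  have hv : v ∈ insert v S := Set.mem_insert _ _
  refine con_of v hv ?_
  have key : ∀ u ∈ S, ∃ hu : u ∈ insert v S, (J.induce (insert v S)).Reachable ⟨v, hv⟩ ⟨u, hu⟩ := by
    refine con_ind hS (fun u => ∃ hu : u ∈ insert v S, (J.induce (insert v S)).Reachable ⟨v, hv⟩ ⟨u, hu⟩) x hx ?_ ?_
    · exact ⟨Or.inr hx, SimpleGraph.Adj.reachable hvx⟩
    · rintro a ha b hb hab ⟨h1, h2⟩
      refine ⟨Or.inr hb, ?_⟩
      rcases hab with hab | ⟨-, ⟨h3, h4⟩ | ⟨h3, h4⟩⟩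
      · exact h2.trans (SimpleGraph.Adj.reachable hab)
      · subst h4
        exact SimpleGraph.Adj.reachable hvy
      · subst h4
        exact SimpleGraph.Adj.reachable hvx
  intro u hu
  rcases hu with hu | hu
  · subst hu
    exact SimpleGraph.Reachable.refl _
  · obtain ⟨_, h⟩ := key u hu
    exact h

private lemma con_away {J : SimpleGraph V} {x y : V} {S : Set V} (hS : Con (ae J x y) S) (h : ¬ (x ∈ S ∧ y ∈ S)) :
    Con J S := by
  have e : (ae J x y).induce S = J.induce S := by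
    ext a b
    constructor
    · rintro (h1 | ⟨-, ⟨h1, h2⟩ | ⟨h1, h2⟩⟩)
      · exact h1
      · exact absurd ⟨h1 ▸ a.2, h2 ▸ b.2⟩ h
      · exact absurd ⟨h2 ▸ b.2, h1 ▸ a.2⟩ h
    · exact fun h1 => Or.inl h1
  change (J.induce S).Connected
  rw [← e]
  exact hS

/-- the vertex `v` is a leaf of the branch set `S` -/
private lemma leaf {J : SimpleGraph V} {v x y t : V} (hv : ∀ a, J.Adj v a → a = x ∨ a = y ∨ a = t) {S : Set V}
    (hS : Con J S) (hvS : v ∈ S) (hx : x ∉ S) (hy : y ∉ S) (hne : S ≠ {v}) :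
    t ∈ S ∧ J.Adj v t ∧ Con J (S \ {v}) := by
  have ht : t ∈ S ∧ J.Adj v t := by
    by_contra hc
    apply hne
    ext u
    refine ⟨fun hu => ?_, fun hu => ?_⟩
    · refine con_ind hS (fun u => u = v) v hvS rfl (fun a ha b hb hab hav => ?_) u hu
      subst hav
      rcases hv b hab with h | h | h
      · exact absurd (h ▸ hb) hx
      · exact absurd (h ▸ hb) hy
      · subst h
        exact absurd ⟨hb, hab⟩ hc
    · rw [Set.mem_singleton_iff] at hu
      rw [hu]
      exact hvS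
  obtain ⟨htS, hvt⟩ := ht
  have htv : t ∈ S \ {v} := ⟨htS, fun h => J.ne_of_adj hvt h.symm⟩
  refine ⟨htS, hvt, con_of t htv ?_⟩
  have key : ∀ u ∈ S, u = v ∨ ∃ hu : u ∈ S \ {v}, (J.induce (S \ {v})).Reachable ⟨t, htv⟩ ⟨u, hu⟩ := by
    refine con_ind hS (fun u => u = v ∨ ∃ hu : u ∈ S \ {v}, (J.induce (S \ {v})).Reachable ⟨t, htv⟩ ⟨u, hu⟩) t htS
      (Or.inr ⟨htv, SimpleGraph.Reachable.refl _⟩) ?_
    intro a ha b hb hab hP
    by_cases hbv : b = v
    · exact Or.inl hbv
    · refine Or.inr ?_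
      rcases hP with h | ⟨h1, h2⟩
      · subst h
        rcases hv b hab with h | h | h
        · exact absurd (h ▸ hb) hx
        · exact absurd (h ▸ hb) hy
        · subst h
          exact ⟨htv, SimpleGraph.Reachable.refl _⟩
      · exact ⟨⟨hb, hbv⟩, h2.trans (SimpleGraph.Adj.reachable hab)⟩
  intro u hu
  rcases key u hu.1 with h | ⟨_, h⟩
  · exact absurd h hu.2
  · exact h

/-- `φ` is a model of `B` in `G` -/
private def Md (B : SimpleGraph W) (G : SimpleGraph V) (φ : W → Set V) : Prop :=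
  (∀ w, Con G (φ w)) ∧ (∀ w w', w ≠ w' → Disjoint (φ w) (φ w')) ∧
    ∀ w w', B.Adj w w' → ∃ x ∈ φ w, ∃ y ∈ φ w', G.Adj x y

private lemma md_eq {B : SimpleGraph W} {G : SimpleGraph V} {φ : W → Set V} (h : Md B G φ) {w w' : W} {u : V}
    (h1 : u ∈ φ w) (h2 : u ∈ φ w') : w = w' := by
  by_contra hne
  exact (Set.disjoint_left.1 (h.2.1 w w' hne)) h1 h2

private lemma ae_comm (J : SimpleGraph V) (x y : V) : ae J x y = ae J y x := by
  ext a b
  constructor
  · rintro (h | ⟨h, h' | h'⟩)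
    · exact Or.inl h
    · exact Or.inr ⟨h, Or.inr h'⟩
    · exact Or.inr ⟨h, Or.inl h'⟩
  · rintro (h | ⟨h, h' | h'⟩)
    · exact Or.inl h
    · exact Or.inr ⟨h, Or.inr h'⟩
    · exact Or.inr ⟨h, Or.inl h'⟩

/-- the edge `x y` is not used -/
private lemma m3 {B : SimpleGraph W} {J : SimpleGraph V} {x y : V} {φ : W → Set V} (h : Md B (ae J x y) φ)
    (h1 : ∀ w, ¬ (x ∈ φ w ∧ y ∈ φ w)) (h2 : ∀ w w', B.Adj w w' → ¬ (x ∈ φ w ∧ y ∈ φ w')) : IsMinor B J := by
  refine ⟨φ, fun w => con_away (h.1 w) (h1 w), h.2.1, ?_⟩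
  intro w w' hw
  obtain ⟨e, he, f, hf, hef⟩ := h.2.2 w w' hw
  rcases hef with hef | ⟨-, ⟨h3, h4⟩ | ⟨h3, h4⟩⟩
  · exact ⟨e, he, f, hf, hef⟩
  · subst h3
    subst h4
    exact absurd ⟨he, hf⟩ (h2 w w' hw)
  · subst h3
    subst h4
    exact absurd ⟨hf, he⟩ (h2 w' w hw.symm)

/-- `v` is in no branch set or in the branch set of `x` -/
private lemma m1 {B : SimpleGraph W} {J : SimpleGraph V} {v x y : V} (hvx : J.Adj v x) (hvy : J.Adj v y)
    {φ : W → Set V} (h : Md B (ae J x y) φ) {a : W} (hx : x ∈ φ a) (hv : ∀ w, w ≠ a → v ∉ φ w) : IsMinor B J := by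
  classical
  have ea : {u | u ∈ φ a ∨ (a = a ∧ u = v)} = insert v (φ a) := by
    ext u
    simp only [Set.mem_ofPred_eq, Set.mem_insert_iff]
    tauto
  have en : ∀ w, w ≠ a → {u | u ∈ φ w ∨ (w = a ∧ u = v)} = φ w := by
    intro w hw
    ext u
    simp only [Set.mem_ofPred_eq]
    tauto
  refine ⟨fun w => {u | u ∈ φ w ∨ (w = a ∧ u = v)}, ?_, ?_, ?_⟩
  · intro w
    by_cases hw : w = a
    · subst hw
      have hc : Con J {u | u ∈ φ w ∨ (w = w ∧ u = v)} := by
        rw [ea]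
        exact con_ins hvx hvy (h.1 _) hx
      exact hc
    · have hc : Con J {u | u ∈ φ w ∨ (w = a ∧ u = v)} := by
        rw [en w hw]
        exact con_away (h.1 w) (fun h' => hw (md_eq h h'.1 hx))
      exact hc
  · intro w w' hw
    rw [Set.disjoint_left]
    rintro u (h1 | ⟨h1, h1'⟩) (h2 | ⟨h2, h2'⟩)
    · exact hw (md_eq h h1 h2)
    · subst h2
      subst h2'
      exact hv w hw h1
    · subst h1
      subst h1'
      exact hv w' (Ne.symm hw) h2
    · exact hw (h1.trans h2.symm)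
  · intro w w' hw
    obtain ⟨e, he, f, hf, hef⟩ := h.2.2 w w' hw
    rcases hef with hef | ⟨-, ⟨h3, h4⟩ | ⟨h3, h4⟩⟩
    · exact ⟨e, Or.inl he, f, Or.inl hf, hef⟩
    · subst h3
      subst h4
      exact ⟨v, Or.inr ⟨md_eq h he hx, rfl⟩, f, Or.inl hf, hvy⟩
    · subst h3
      subst h4
      exact ⟨e, Or.inl he, v, Or.inr ⟨md_eq h hf hx, rfl⟩, hvy.symm⟩

/-- `v` is moved to the branch set of `x` -/
private lemma m2 {B : SimpleGraph W} {J : SimpleGraph V} {v x y t : V} (hvx : J.Adj v x) (hvy : J.Adj v y)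
    (hv : ∀ a, J.Adj v a → a = x ∨ a = y ∨ a = t) {φ : W → Set V} (h : Md B (ae J x y) φ) {a i : W}
    (hx : x ∈ φ a) (hvi : v ∈ φ i) (hia : i ≠ a) (hyi : y ∉ φ i) (hne : φ i ≠ {v})
    (hB : ∀ w, B.Adj i w → w ≠ a → y ∉ φ w) : IsMinor B J := by
  classical
  have hxi : x ∉ φ i := fun h' => hia (md_eq h h' hx)
  obtain ⟨hti, hvt, hcon⟩ := leaf hv (con_away (h.1 i) (fun h' => hxi h'.1)) hvi hxi hyi hne
  have htv : t ≠ v := fun h' => J.ne_of_adj hvt h'.symm
  have hyv : y ≠ v := fun h' => J.ne_of_adj hvy h'.symm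
  have ea : {u | (u ∈ φ a ∧ (a = i → u ≠ v)) ∨ (a = a ∧ u = v)} = insert v (φ a) := by
    ext u
    simp only [Set.mem_ofPred_eq, Set.mem_insert_iff]
    tauto
  have ei : {u | (u ∈ φ i ∧ (i = i → u ≠ v)) ∨ (i = a ∧ u = v)} = φ i \ {v} := by
    ext u
    simp only [Set.mem_ofPred_eq, Set.mem_sdiff, Set.mem_singleton_iff]
    tauto
  have en : ∀ w, w ≠ a → w ≠ i → {u | (u ∈ φ w ∧ (w = i → u ≠ v)) ∨ (w = a ∧ u = v)} = φ w := by
    intro w hw hw'
    ext u
    simp only [Set.mem_ofPred_eq]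
    tauto
  -- an edge which starts in `v ∈ φ i`
  have edge1 : ∀ w', B.Adj i w' → ∀ f ∈ φ w', J.Adj v f → w' = a := by
    intro w' hw f hf hvf
    by_contra hwa
    rcases hv f hvf with h1 | h1 | h1
    · subst h1
      exact hwa (md_eq h hf hx)
    · subst h1
      exact hB w' hw hwa hf
    · subst h1
      exact B.ne_of_adj hw (md_eq h hti hf)
  refine ⟨fun w => {u | (u ∈ φ w ∧ (w = i → u ≠ v)) ∨ (w = a ∧ u = v)}, ?_, ?_, ?_⟩
  · intro w
    by_cases hw : w = a
    · subst hw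
      have hc : Con J {u | (u ∈ φ w ∧ (w = i → u ≠ v)) ∨ (w = w ∧ u = v)} := by
        rw [ea]
        exact con_ins hvx hvy (h.1 _) hx
      exact hc
    · by_cases hw' : w = i
      · subst hw'
        have hc : Con J {u | (u ∈ φ w ∧ (w = w → u ≠ v)) ∨ (w = a ∧ u = v)} := by
          rw [ei]
          exact hcon
        exact hc
      · have hc : Con J {u | (u ∈ φ w ∧ (w = i → u ≠ v)) ∨ (w = a ∧ u = v)} := by
          rw [en w hw hw']
          exact con_away (h.1 w) (fun h' => hw (md_eq h h'.1 hx))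
        exact hc
  · intro w w' hw
    rw [Set.disjoint_left]
    rintro u (⟨h1, h1'⟩ | ⟨h1, h1'⟩) (⟨h2, h2'⟩ | ⟨h2, h2'⟩)
    · exact hw (md_eq h h1 h2)
    · subst h2'
      exact h1' (md_eq h h1 hvi) rfl
    · subst h1'
      exact h2' (md_eq h h2 hvi) rfl
    · exact hw (h1.trans h2.symm)
  · intro w w' hw
    obtain ⟨e, he, f, hf, hef⟩ := h.2.2 w w' hw
    rcases hef with hef | ⟨-, ⟨h3, h4⟩ | ⟨h3, h4⟩⟩
    · by_cases c1 : w = i ∧ e = v
      · obtain ⟨c1, c1'⟩ := c1
        subst c1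
        subst c1'
        have hw' : w' = a := edge1 w' hw f hf hef
        exact ⟨t, Or.inl ⟨hti, fun _ => htv⟩, e, Or.inr ⟨hw', rfl⟩, hvt.symm⟩
      · by_cases c2 : w' = i ∧ f = v
        · obtain ⟨c2, c2'⟩ := c2
          subst c2
          subst c2'
          have hw' : w = a := edge1 w hw.symm e he hef.symm
          exact ⟨f, Or.inr ⟨hw', rfl⟩, t, Or.inl ⟨hti, fun _ => htv⟩, hvt⟩
        · exact ⟨e, Or.inl ⟨he, fun c3 c4 => c1 ⟨c3, c4⟩⟩, f, Or.inl ⟨hf, fun c3 c4 => c2 ⟨c3, c4⟩⟩, hef⟩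
    · subst h3
      subst h4
      exact ⟨v, Or.inr ⟨md_eq h he hx, rfl⟩, f, Or.inl ⟨hf, fun _ => hyv⟩, hvy⟩
    · subst h3
      subst h4
      exact ⟨e, Or.inl ⟨he, fun _ => hyv⟩, v, Or.inr ⟨md_eq h hf hx, rfl⟩, hvy.symm⟩

/-- if the branch set of `v` is `{v}` then its vertex has at most three neighbours in `B` -/
private lemma nb {B : SimpleGraph W} {J : SimpleGraph V} {v x y t : V} (hvx : J.Adj v x) (hvy : J.Adj v y)
    (hv : ∀ a, J.Adj v a → a = x ∨ a = y ∨ a = t) {φ : W → Set V} (h : Md B (ae J x y) φ) {a b i : W}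
    (hx : x ∈ φ a) (hy : y ∈ φ b) (hi : φ i = {v}) : ∃ c, ∀ w, B.Adj i w → w = a ∨ w = b ∨ w = c := by
  classical
  have hc : ∃ c, ∀ w, t ∈ φ w → w = c := by
    by_cases ht : ∃ c, t ∈ φ c
    · obtain ⟨c, hc⟩ := ht
      exact ⟨c, fun w hw => md_eq h hw hc⟩
    · exact ⟨i, fun w hw => absurd ⟨w, hw⟩ ht⟩
  obtain ⟨c, hc⟩ := hc
  refine ⟨c, fun w hw => ?_⟩
  obtain ⟨e, he, f, hf, hef⟩ := h.2.2 i w hw
  rw [hi, Set.mem_singleton_iff] at he
  subst he
  rcases hef with hef | ⟨-, ⟨h3, h4⟩ | ⟨h3, h4⟩⟩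
  · rcases hv f hef with h1 | h1 | h1
    · subst h1
      exact Or.inl (md_eq h hf hx)
    · subst h1
      exact Or.inr (Or.inl (md_eq h hf hy))
    · subst h1
      exact Or.inr (Or.inr (hc w hf))
  · exact absurd h3 (J.ne_of_adj hvx)
  · exact absurd h3 (J.ne_of_adj hvy)

/-- the remaining case -/
private lemma gen {B : SimpleGraph W} (h3 : ∀ i p q, ∃ w, B.Adj i w ∧ w ≠ p ∧ w ≠ q) {J : SimpleGraph V}
    {v x y t : V} (hvx : J.Adj v x) (hvy : J.Adj v y)
    (hv : ∀ a, J.Adj v a → a = x ∨ a = y ∨ a = t) {φ : W → Set V} (h : Md B (ae J x y) φ) :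
    IsMinor B J ∨ ∃ a b i, a ≠ b ∧ i ≠ a ∧ i ≠ b ∧ B.Adj a b ∧ x ∈ φ a ∧ y ∈ φ b ∧ v ∈ φ i := by
  classical
  by_cases hx : ∃ a, x ∈ φ a
  swap
  · exact Or.inl (m3 h (fun w hw => hx ⟨w, hw.1⟩) (fun w w' _ hw => hx ⟨w, hw.1⟩))
  by_cases hy : ∃ b, y ∈ φ b
  swap
  · exact Or.inl (m3 h (fun w hw => hy ⟨w, hw.2⟩) (fun w w' _ hw => hy ⟨w', hw.2⟩))
  obtain ⟨a, hx⟩ := hx
  obtain ⟨b, hy⟩ := hy
  by_cases hvi : ∃ i, v ∈ φ i
  swap
  · exact Or.inl (m1 hvx hvy h hx (fun w _ hw => hvi ⟨w, hw⟩))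
  obtain ⟨i, hvi⟩ := hvi
  by_cases hia : i = a
  · subst hia
    exact Or.inl (m1 hvx hvy h hx (fun w hw hw' => hw (md_eq h hw' hvi)))
  by_cases hib : i = b
  · subst hib
    rw [ae_comm] at h
    exact Or.inl (m1 hvy hvx h hy (fun w hw hw' => hw (md_eq h hw' hvi)))
  by_cases hab : a = b
  · subst hab
    by_cases hi : φ i = {v}
    · obtain ⟨c, hc⟩ := nb hvx hvy hv h hx hy hi
      obtain ⟨w, hw1, hw2, hw3⟩ := h3 i a c
      rcases hc w hw1 with h1 | h1 | h1
      · exact absurd h1 hw2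
      · exact absurd h1 hw2
      · exact absurd h1 hw3
    · exact Or.inl (m2 hvx hvy hv h hx hvi hia (fun h' => hia (md_eq h h' hy)) hi
        (fun w _ hw hw' => hw (md_eq h hw' hy)))
  · by_cases hB : B.Adj a b
    · exact Or.inr ⟨a, b, i, hab, hia, hib, hB, hx, hy, hvi⟩
    · refine Or.inl (m3 h (fun w hw => hab ((md_eq h hx hw.1).trans (md_eq h hw.2 hy))) ?_)
      intro w w' hww hw
      rw [md_eq h hw.1 hx, md_eq h hw.2 hy] at hww
      exact hB hww

end

private lemma k5a : ∀ a b c d : Fin 5, ∃ w : Fin 5, w ≠ a ∧ w ≠ b ∧ w ≠ c ∧ w ≠ d := by decide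

private lemma k5b : ∀ a b i : Fin 5, ∃ c d : Fin 5, c ≠ d ∧ c ≠ a ∧ c ≠ b ∧ c ≠ i ∧ d ≠ a ∧ d ≠ b ∧ d ≠ i := by decide

private lemma k33r : ∀ p q : Fin 3 ⊕ Fin 3, ∃ j : Fin 3, (Sum.inr j : Fin 3 ⊕ Fin 3) ≠ p ∧ (Sum.inr j : Fin 3 ⊕ Fin 3) ≠ q := by
  decide

private lemma k33l : ∀ p q : Fin 3 ⊕ Fin 3, ∃ j : Fin 3, (Sum.inl j : Fin 3 ⊕ Fin 3) ≠ p ∧ (Sum.inl j : Fin 3 ⊕ Fin 3) ≠ q := by
  decide

private lemma adjlr (i j : Fin 3) : (completeBipartiteGraph (Fin 3) (Fin 3)).Adj (Sum.inl i) (Sum.inr j) := by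
  simp [completeBipartiteGraph]

private lemma adjrl (i j : Fin 3) : (completeBipartiteGraph (Fin 3) (Fin 3)).Adj (Sum.inr i) (Sum.inl j) := by
  simp [completeBipartiteGraph]

private lemma nadjll (i j : Fin 3) : ¬ (completeBipartiteGraph (Fin 3) (Fin 3)).Adj (Sum.inl i) (Sum.inl j) := by
  simp [completeBipartiteGraph]

private lemma nadjrr (i j : Fin 3) : ¬ (completeBipartiteGraph (Fin 3) (Fin 3)).Adj (Sum.inr i) (Sum.inr j) := by
  simp [completeBipartiteGraph]

private lemma k33a : ∀ i p q, ∃ w, (completeBipartiteGraph (Fin 3) (Fin 3)).Adj i w ∧ w ≠ p ∧ w ≠ q := by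
  rintro (i | i) p q
  · obtain ⟨j, h1, h2⟩ := k33r p q
    exact ⟨Sum.inr j, adjlr _ _, h1, h2⟩
  · obtain ⟨j, h1, h2⟩ := k33l p q
    exact ⟨Sum.inl j, adjrl _ _, h1, h2⟩

private lemma k33b : ∀ i a b c, (completeBipartiteGraph (Fin 3) (Fin 3)).Adj a b →
    ∃ w, (completeBipartiteGraph (Fin 3) (Fin 3)).Adj i w ∧ w ≠ a ∧ w ≠ b ∧ w ≠ c := by
  rintro (i | i) (a | a) (b | b) c hab
  · exact absurd hab (nadjll _ _)
  · obtain ⟨j, h1, h2⟩ := k33r (Sum.inr b) c
    exact ⟨Sum.inr j, adjlr _ _, by simp, h1, h2⟩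
  · obtain ⟨j, h1, h2⟩ := k33r (Sum.inr a) c
    exact ⟨Sum.inr j, adjlr _ _, h1, by simp, h2⟩
  · exact absurd hab (nadjrr _ _)
  · exact absurd hab (nadjll _ _)
  · obtain ⟨j, h1, h2⟩ := k33l (Sum.inl a) c
    exact ⟨Sum.inl j, adjrl _ _, h1, by simp, h2⟩
  · obtain ⟨j, h1, h2⟩ := k33l (Sum.inl b) c
    exact ⟨Sum.inl j, adjrl _ _, by simp, h1, h2⟩
  · exact absurd hab (nadjrr _ _)

private lemma k33c : ∀ i a b, (completeBipartiteGraph (Fin 3) (Fin 3)).Adj a b →
    ¬ (completeBipartiteGraph (Fin 3) (Fin 3)).Adj i a ∨ ¬ (completeBipartiteGraph (Fin 3) (Fin 3)).Adj i b := by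
  rintro (i | i) (a | a) (b | b) hab
  · exact absurd hab (nadjll _ _)
  · exact Or.inl (nadjll _ _)
  · exact Or.inr (nadjll _ _)
  · exact absurd hab (nadjrr _ _)
  · exact absurd hab (nadjll _ _)
  · exact Or.inr (nadjrr _ _)
  · exact Or.inl (nadjrr _ _)
  · exact absurd hab (nadjrr _ _)

/-- TRI -/
theorem hTRI : StTRI := by
  intro V _ J v x y t hxy hvx hvy hv hP
  constructor
  · rintro ⟨φ, h1, h2, h3⟩
    have h : Md ⊤ (ae J x y) φ := ⟨h1, h2, h3⟩
    have hk : ∀ i p q : Fin 5, ∃ w, (⊤ : SimpleGraph (Fin 5)).Adj i w ∧ w ≠ p ∧ w ≠ q := by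
      intro i p q
      obtain ⟨w, w1, w2, w3, -⟩ := k5a i p q q
      exact ⟨w, fun h' => w1 h'.symm, w2, w3⟩
    rcases gen hk hvx hvy hv h with h' | ⟨a, b, i, hab, hia, hib, -, hx, hy, hvi⟩
    · exact hP.1 h'
    · by_cases hi : φ i = {v}
      · obtain ⟨c, hc⟩ := nb hvx hvy hv h hx hy hi
        obtain ⟨w, w1, w2, w3, w4⟩ := k5a i a b c
        rcases hc w (fun h' => w1 h'.symm) with h4 | h4 | h4
        · exact w2 h4
        · exact w3 h4
        · exact w4 h4
      · obtain ⟨c, d, hcd, hca, hcb, hci, hda, hdb, hdi⟩ := k5b a b i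
        have hxi : x ∉ φ i := fun h' => hia (md_eq h h' hx)
        have hyi : y ∉ φ i := fun h' => hib (md_eq h h' hy)
        obtain ⟨hti, hvt, hcon⟩ := leaf hv (con_away (h.1 i) (fun h' => hxi h'.1)) hvi hxi hyi hi
        have htv : t ≠ v := fun h' => J.ne_of_adj hvt h'.symm
        have con' : ∀ w, Con J (φ w) := fun w => con_away (h.1 w)
          (fun h' => hab ((md_eq h hx h'.1).trans (md_eq h h'.2 hy)))
        -- edges at `φ w`, `w ≠ a, b, i`
        have ed1 : ∀ w, w ≠ a → w ≠ b → w ≠ i → ∀ w', w ≠ w' → Tch J (φ w) (φ w' \ {v}) := by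
          intro w wa wb wi w' hw
          obtain ⟨e, he, f, hf, hef⟩ := h.2.2 w w' hw
          rcases hef with hef | ⟨-, ⟨h5, h6⟩ | ⟨h5, h6⟩⟩
          · refine ⟨e, he, f, ⟨hf, fun h7 => ?_⟩, hef⟩
            rw [Set.mem_singleton_iff] at h7
            subst h7
            rcases hv e hef.symm with h8 | h8 | h8
            · subst h8
              exact wa (md_eq h he hx)
            · subst h8
              exact wb (md_eq h he hy)
            · subst h8
              exact wi (md_eq h he hti)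
          · subst h5
            exact absurd (md_eq h he hx) wa
          · subst h5
            exact absurd (md_eq h he hy) wb
        have ed2 : ∀ w, w ≠ a → w ≠ b → w ≠ i → ∀ w', w ≠ w' → Tch J (φ w) (φ w') := by
          intro w wa wb wi w' hw
          obtain ⟨e, he, f, hf, hef⟩ := ed1 w wa wb wi w' hw
          exact ⟨e, he, f, hf.1, hef⟩
        have dj : ∀ w w', w ≠ w' → Disjoint (φ w) (φ w') := h.2.1
        have djv : ∀ w, w ≠ i → Disjoint ({v} : Set V) (φ w) := by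
          intro w hw
          rw [Set.disjoint_singleton_left]
          exact fun h' => hw (md_eq h h' hvi)
        have dji : ∀ w, w ≠ i → Disjoint (φ i \ {v}) (φ w) := by
          intro w hw
          exact (dj i w (Ne.symm hw)).mono_left Set.sdiff_subset
        have djvi : Disjoint ({v} : Set V) (φ i \ {v}) := by
          rw [Set.disjoint_singleton_left]
          exact fun h' => h'.2 rfl
        refine (Pool.Agent.Helper12.MA.nMNR V J hP).2 ![{v}, φ c, φ d] ![φ i \ {v}, φ a, φ b] ?_ ?_ ?_ ?_ ?_ ?_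
        · intro j
          fin_cases j
          · exact Pool.Agent.Helper51.AJ.con_singleton J v
          · exact con' c
          · exact con' d
        · intro j
          fin_cases j
          · exact hcon
          · exact con' a
          · exact con' b
        · intro j k hjk
          fin_cases j <;> fin_cases k
          · exact absurd rfl hjk
          · exact djv c hci
          · exact djv d hdi
          · exact (djv c hci).symm
          · exact absurd rfl hjk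
          · exact dj c d hcd
          · exact (djv d hdi).symm
          · exact dj d c (Ne.symm hcd)
          · exact absurd rfl hjk
        · intro j k hjk
          fin_cases j <;> fin_cases k
          · exact absurd rfl hjk
          · exact dji a (Ne.symm hia)
          · exact dji b (Ne.symm hib)
          · exact (dji a (Ne.symm hia)).symm
          · exact absurd rfl hjk
          · exact dj a b hab
          · exact (dji b (Ne.symm hib)).symm
          · exact dj b a (Ne.symm hab)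
          · exact absurd rfl hjk
        · intro j k
          fin_cases j <;> fin_cases k
          · exact djvi
          · exact djv a (Ne.symm hia)
          · exact djv b (Ne.symm hib)
          · exact (dji c hci).symm
          · exact dj c a hca
          · exact dj c b hcb
          · exact (dji d hdi).symm
          · exact dj d a hda
          · exact dj d b hdb
        · intro j k
          fin_cases j <;> fin_cases k
          · exact ⟨v, rfl, t, ⟨hti, htv⟩, hvt⟩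
          · exact ⟨v, rfl, x, hx, hvx⟩
          · exact ⟨v, rfl, y, hy, hvy⟩
          · exact ed1 c hca hcb hci i hci
          · exact ed2 c hca hcb hci a hca
          · exact ed2 c hca hcb hci b hcb
          · exact ed1 d hda hdb hdi i hdi
          · exact ed2 d hda hdb hdi a hda
          · exact ed2 d hda hdb hdi b hdb
  · rintro ⟨φ, h1, h2, h3⟩
    have h : Md (completeBipartiteGraph (Fin 3) (Fin 3)) (ae J x y) φ := ⟨h1, h2, h3⟩
    rcases gen k33a hvx hvy hv h with h' | ⟨a, b, i, hab, hia, hib, hB, hx, hy, hvi⟩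
    · exact hP.2 h'
    · by_cases hi : φ i = {v}
      · obtain ⟨c, hc⟩ := nb hvx hvy hv h hx hy hi
        obtain ⟨w, w1, w2, w3, w4⟩ := k33b i a b c hB
        rcases hc w w1 with h4 | h4 | h4
        · exact w2 h4
        · exact w3 h4
        · exact w4 h4
      · have hxi : x ∉ φ i := fun h' => hia (md_eq h h' hx)
        have hyi : y ∉ φ i := fun h' => hib (md_eq h h' hy)
        rcases k33c i a b hB with hn | hn
        · have hv' : ∀ a, J.Adj v a → a = y ∨ a = x ∨ a = t := by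
            intro a ha
            rcases hv a ha with h4 | h4 | h4
            · exact Or.inr (Or.inl h4)
            · exact Or.inl h4
            · exact Or.inr (Or.inr h4)
          rw [ae_comm] at h
          refine hP.2 (m2 hvy hvx hv' h hy hvi hib hxi hi ?_)
          intro w hw hwb hxw
          rw [md_eq h hxw hx] at hw
          exact hn hw
        · refine hP.2 (m2 hvx hvy hv h hx hvi hia hyi hi ?_)
          intro w hw hwa hyw
          rw [md_eq h hyw hy] at hw
          exact hn hw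

end Pool.Agent.Helper77.DE
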